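import Pool.Agent.Helper1.Stab.PR
import Pool.Agent.Helper39.Stab.Ltens
import Pool.Agent.Helper9.Stab.BivL

/-! Auxiliary lemmas for `gen_succ`: extension by zero and block sums of projections, coherence. -/

open Topology Filter Set Matrix

noncomputable section

namespace Pool.Agent.Helper82.Stab

open Pool.Agent.Helper1.Stab
open Pool.Agent.Helper39.Stab (asc J_homeo_symm J_homeo_symm' tens_id tens_ltens)
open Pool.Agent.Helper9.Stab (ltens_J ltens_comp)

variable {S T S' T' : Type} [Fintype S] [Fintype T] [Fintype S'] [Fintype T'] {n m : ℕ}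

theorem ext_apply (j : S ↪ T) (P : Pr S n) (x y : S) : (Pr.ext j P).1 (j x) (j y) = P.1 x y := by
  have h : (∃ s, j s = j x) ∧ (∃ s, j s = j y) := ⟨⟨x, rfl⟩, ⟨y, rfl⟩⟩
  have h1 : (Pr.ext j P).1 (j x) (j y) = P.1 h.1.choose h.2.choose := dif_pos h
  rw [h1, j.injective h.1.choose_spec, j.injective h.2.choose_spec]

theorem ext_left (j : S ↪ T) (P : Pr S n) {a : T} (ha : ∀ s, j s ≠ a) (b : T) :
    (Pr.ext j P).1 a b = 0 :=
  dif_neg fun h => ha h.1.choose h.1.choose_spec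

theorem ext_right (j : S ↪ T) (P : Pr S n) (a : T) {b : T} (hb : ∀ s, j s ≠ b) :
    (Pr.ext j P).1 a b = 0 :=
  dif_neg fun h => hb h.2.choose h.2.choose_spec

theorem pr_ext_iff {P Q : Pr S n} (h : ∀ x y, P.1 x y = Q.1 x y) : P = Q :=
  Subtype.ext (Matrix.ext h)

/-- Extension of a block sum. -/
theorem sum_ext (j : S ↪ T) (i : S' ↪ T') (P : Pr S n) (Q : Pr S' m) :
    Pr.sum (Pr.ext j P, Pr.ext i Q) = Pr.ext (j.sumMap i) (Pr.sum (P, Q)) := by
  have hl : ∀ a : T, (∀ s, j s ≠ a) → ∀ s, (j.sumMap i) s ≠ Sum.inl a := by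
    rintro a ha (s | s) h
    · exact ha s (Sum.inl.inj h)
    · exact Sum.inr_ne_inl h
  have hr : ∀ a : T', (∀ s, i s ≠ a) → ∀ s, (j.sumMap i) s ≠ Sum.inr a := by
    rintro a ha (s | s) h
    · exact Sum.inl_ne_inr h
    · exact ha s (Sum.inr.inj h)
  refine pr_ext_iff ?_
  rintro (a | a) (b | b)
  · change (Pr.ext j P).1 a b = _
    by_cases ha : ∃ s, j s = a
    · by_cases hb : ∃ s, j s = b
      · obtain ⟨s, rfl⟩ := ha
        obtain ⟨t, rfl⟩ := hb
        rw [ext_apply]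
        exact (ext_apply (j.sumMap i) (Pr.sum (P, Q)) (Sum.inl s) (Sum.inl t)).symm
      · rw [ext_right _ _ _ (not_exists.1 hb), ext_right _ _ _ (hl b (not_exists.1 hb))]
    · rw [ext_left _ _ (not_exists.1 ha), ext_left _ _ (hl a (not_exists.1 ha))]
  · change (0 : ℂ) = _
    by_cases ha : ∃ s, j s = a
    · by_cases hb : ∃ s, i s = b
      · obtain ⟨s, rfl⟩ := ha
        obtain ⟨t, rfl⟩ := hb
        exact (ext_apply (j.sumMap i) (Pr.sum (P, Q)) (Sum.inl s) (Sum.inr t)).symm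
      · rw [ext_right _ _ _ (hr b (not_exists.1 hb))]
    · rw [ext_left _ _ (hl a (not_exists.1 ha))]
  · change (0 : ℂ) = _
    by_cases ha : ∃ s, i s = a
    · by_cases hb : ∃ s, j s = b
      · obtain ⟨s, rfl⟩ := ha
        obtain ⟨t, rfl⟩ := hb
        exact (ext_apply (j.sumMap i) (Pr.sum (P, Q)) (Sum.inr s) (Sum.inl t)).symm
      · rw [ext_right _ _ _ (hl b (not_exists.1 hb))]
    · rw [ext_left _ _ (hr a (not_exists.1 ha))]
  · change (Pr.ext i Q).1 a b = _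
    by_cases ha : ∃ s, i s = a
    · by_cases hb : ∃ s, i s = b
      · obtain ⟨s, rfl⟩ := ha
        obtain ⟨t, rfl⟩ := hb
        rw [ext_apply]
        exact (ext_apply (j.sumMap i) (Pr.sum (P, Q)) (Sum.inr s) (Sum.inr t)).symm
      · rw [ext_right _ _ _ (not_exists.1 hb), ext_right _ _ _ (hr b (not_exists.1 hb))]
    · rw [ext_left _ _ (not_exists.1 ha), ext_left _ _ (hr a (not_exists.1 ha))]

theorem ext_refl (P : Pr S n) : Pr.ext (Function.Embedding.refl S) P = P :=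
  pr_ext_iff fun x y => ext_apply (Function.Embedding.refl S) P x y

/-- Block sum as a pointed map (same as `Pr.sumM`). -/
def sumM (S T : Type) [Fintype S] [Fintype T] (n m : ℕ) :
    PMap ((LC.Pr S n).prod (LC.Pr T m)) (LC.Pr (S ⊕ T) (n + m)).plus :=
  PMap.ofCont (K := (LC.Pr S n).prod (LC.Pr T m)) (L := LC.Pr (S ⊕ T) (n + m)) Pr.sum
    Pr.continuous_sum

variable (R : Biv)

theorem J_sumM_ext_left (j : S ↪ T) (S' : Type) [Fintype S'] (n m : ℕ) :
    R.comp (R.tens (R.J (Pr.extM j n)) (LC.Pr S' m)) (R.J (sumM T S' n m)) =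
      R.comp (R.J (sumM S S' n m))
        (R.J (Pr.extM (j.sumMap (Function.Embedding.refl S')) (n + m))) := by
  rw [R.tens_J, ← R.J_comp, ← R.J_comp]
  congr 1
  refine PMap.ext ?_
  rintro ⟨P, Q⟩
  change ((Pr.sum (Pr.ext j P, Q) : LC.Pr (T ⊕ S') (n + m)) : OnePoint (LC.Pr (T ⊕ S') (n + m))) =
    ((Pr.ext (j.sumMap (Function.Embedding.refl S')) (Pr.sum (P, Q)) :
      LC.Pr (T ⊕ S') (n + m)) : OnePoint (LC.Pr (T ⊕ S') (n + m)))
  rw [← sum_ext, ext_refl]

theorem J_sumM_ext_right (j : S' ↪ T') (S : Type) [Fintype S] (n m : ℕ) :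
    R.comp (R.ltens (LC.Pr S n) (R.J (Pr.extM j m))) (R.J (sumM S T' n m)) =
      R.comp (R.J (sumM S S' n m))
        (R.J (Pr.extM ((Function.Embedding.refl S).sumMap j) (n + m))) := by
  rw [ltens_J, ← R.J_comp, ← R.J_comp]
  congr 1
  refine PMap.ext ?_
  rintro ⟨P, Q⟩
  change ((Pr.sum (P, Pr.ext j Q) : LC.Pr (S ⊕ T') (n + m)) : OnePoint (LC.Pr (S ⊕ T') (n + m))) =
    ((Pr.ext ((Function.Embedding.refl S).sumMap j) (Pr.sum (P, Q)) :
      LC.Pr (S ⊕ T') (n + m)) : OnePoint (LC.Pr (S ⊕ T') (n + m)))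
  rw [← sum_ext, ext_refl]

/-- the inverse associator -/
def ai (A B C : LC) : R.Hom (A.prod (B.prod C)) ((A.prod B).prod C) :=
  R.J (PMap.ofHomeo (asc A B C).symm)

theorem asc_ai (A B C : LC) : R.comp (R.J (PMap.ofHomeo (asc A B C))) (ai R A B C) =
    R.J (PMap.id _) := J_homeo_symm R (asc A B C)

theorem ai_asc (A B C : LC) : R.comp (ai R A B C) (R.J (PMap.ofHomeo (asc A B C))) =
    R.J (PMap.id _) := J_homeo_symm' R (asc A B C)

/-- `(x × (Z × W)) ≫ asc⁻¹ = asc⁻¹ ≫ ((x × Z) × W)` -/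
theorem tens_ai {K L : LC} (x : R.Hom K L) (Z W : LC) :
    R.comp (R.tens x (Z.prod W)) (ai R L Z W) =
      R.comp (ai R K Z W) (R.tens (R.tens x Z) W) := by
  have h := R.tens_tens x Z W
  have h2 : R.comp (ai R K Z W) (R.comp (R.comp (R.tens (R.tens x Z) W)
      (R.J (PMap.ofHomeo (asc L Z W)))) (ai R L Z W)) =
      R.comp (ai R K Z W) (R.comp (R.comp (R.J (PMap.ofHomeo (asc K Z W)))
        (R.tens x (Z.prod W))) (ai R L Z W)) := congrArg
        (fun y => R.comp (ai R K Z W) (R.comp y (ai R L Z W))) h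
  rw [R.assoc, asc_ai, R.comp_id, ← R.assoc (ai R K Z W), ← R.assoc (ai R K Z W), ai_asc,
    R.id_comp] at h2
  exact h2.symm

/-- `(Z × (x × W)) ≫ asc⁻¹ = asc⁻¹ ≫ ((Z × x) × W)` -/
theorem ltens_ai (Z : LC) {K L : LC} (x : R.Hom K L) (W : LC) :
    R.comp (R.ltens Z (R.tens x W)) (ai R Z L W) =
      R.comp (ai R Z K W) (R.tens (R.ltens Z x) W) := by
  rw [tens_ltens R Z x W, ← R.assoc (ai R Z K W), ai_asc, R.id_comp]
  rfl

/-- The main coherence: the product of `e : A → P` and `b : C → Q`, followed by `σ : P × Q → V`. -/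
theorem coh {K A C P Q V Z : LC} (c : R.Hom K (A.prod (C.prod Z))) (e : R.Hom A P)
    (b : R.Hom C Q) (σ : R.Hom (P.prod Q) V) :
    R.comp (R.comp (R.comp (R.comp c (R.ltens A (R.tens b Z))) (R.tens e (Q.prod Z)))
      (ai R P Q Z)) (R.tens σ Z) =
    R.comp (R.comp c (ai R A C Z)) (R.tens (R.comp (R.tens e C) (R.comp (R.ltens P b) σ)) Z) := by
  rw [R.assoc c, ← R.exch e (R.tens b Z), R.assoc, R.assoc, R.assoc, ← R.assoc (R.ltens P _),
    ltens_ai, R.assoc, ← R.assoc (R.tens e (C.prod Z)), tens_ai, R.assoc, R.assoc, R.tens_comp,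
    R.tens_comp]

theorem cancel {A B C D : LC} (e : A ≃ₜ B) (x : R.Hom A C) (y : R.Hom C D) :
    R.comp (R.comp (R.J (PMap.ofHomeo e)) (R.comp (R.J (PMap.ofHomeo e.symm)) x)) y =
      R.comp x y := by
  rw [← R.assoc (R.J (PMap.ofHomeo e)), J_homeo_symm, R.id_comp]

theorem tens_split {K A B C Z : LC} (c : R.Hom K (A.prod Z)) (f : R.Hom A B) (e : R.Hom B C) :
    R.comp c (R.tens (R.comp f e) Z) = R.comp (R.comp c (R.tens f Z)) (R.tens e Z) := by
  rw [R.tens_comp, R.assoc]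

end Pool.Agent.Helper82.Stab
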